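import Pool.Agent.H.MP_3e56e8_al.Main

namespace Pool.Agent.Results.MP_3e56e8_al.Congruence
open Finset Pool.Agent.H.MP_3e56e8_al

/-- `N(s - I)`: families `(U_c)` of subgroups of `G`, `c ∈ I`, with `|U_c| = p ^ (s - c)` and
`U_c ≤ U_c'` whenever `c' ≤ c`. -/
noncomputable def N (G : Type) [Group G] (p s : ℕ) (I : Finset ℕ) : ℕ :=
  Nat.card {U : I → Subgroup G // (∀ c, Nat.card (U c) = p ^ (s - c)) ∧
    ∀ c c' : I, c'.1 ≤ c.1 → U c ≤ U c'}

theorem result (G : Type) [Group G] [Finite G] (p s : ℕ) (hp : p.Prime) (hs : p ^ s ∣ Nat.card G)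
    (J : Finset ℕ) (hJ : ∀ c ∈ J, c ≤ s) :
    ∑ I ∈ J.powerset.erase ∅, (-1) ^ (I.card + 1) * (N G p s I : ℤ) ≡ 1
      [ZMOD (p ^ J.card : ℕ)] := by
  have := Fintype.ofFinite G
  have := Fact.mk hp
  have h := main s hJ hs
  have e : ∀ I, ND p s I (⊤ : Subgroup G) = N G p s I := fun I => by simp [ND, N]
  rw [AA, ← add_sum_erase _ _ (empty_mem_powerset J)] at h
  refine Int.modEq_iff_dvd.2 (h.trans (dvd_of_eq ?_))
  rw [sub_eq_add_neg, ← sum_neg_distrib]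
  congr 1
  · simp [ND]
  · exact sum_congr rfl fun I _ => by rw [e]; ring

end Pool.Agent.Results.MP_3e56e8_al.Congruence
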